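import Pool.Agent.H67.FS.Targets

/-!
# Modules Y1 and Y2: exactness and weight statements of the complex of a configuration
-/

set_option autoImplicit false

namespace Pool.Agent.H92.FS

open Pool.Agent.H67.FS

universe u

variable {F : Type u} [Field F] {ι : Type}

lemma indep4 {x y z t : Fin 4 → F} (h : LinearIndependent F ![x, y, z, t]) {a b c d : F}
    (h0 : a • x + b • y + c • z + d • t = 0) : a = 0 ∧ b = 0 ∧ c = 0 ∧ d = 0 := by
  have h1 := Fintype.linearIndependent_iff.1 h ![a, b, c, d] (by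
    rw [Fin.sum_univ_four]
    simpa using h0)
  exact ⟨by simpa using h1 0, by simpa using h1 1, by simpa using h1 2, by simpa using h1 3⟩

lemma fourth [DecidableEq ι] {e : ι → Fin 4 → F} (hG : GP e) (g h a : ι) :
    ∃ b, b ≠ g ∧ b ≠ h ∧ b ≠ a := by
  obtain ⟨b, _, _, hb, _⟩ := hG {g, h, a} (Finset.card_le_three)
  refine ⟨b, ?_, ?_, ?_⟩ <;> rintro rfl <;> simp at hb

lemma indep3 [DecidableEq ι] {e : ι → Fin 4 → F} (hG : GP e) {g h : ι}
    (hgh : ∀ a b : ι, a ≠ b → a ≠ g → a ≠ h → b ≠ g → b ≠ h →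
      LinearIndependent F ![e g, e h, e a, e b]) {a : ι} (ha : a ≠ g) (ha' : a ≠ h) {x y z : F}
    (h0 : x • e g + y • e h + z • e a = 0) : x = 0 ∧ y = 0 ∧ z = 0 := by
  obtain ⟨b, b1, b2, b3⟩ := fourth hG g h a
  have h1 := indep4 (hgh a b (Ne.symm b3) ha ha' b1 b2) (a := x) (b := y) (c := z) (d := 0)
    (by rw [zero_smul, add_zero]; exact h0)
  exact ⟨h1.1, h1.2.1, h1.2.2.1⟩

/-- core of Y1 -/
lemma core1 [DecidableEq ι] {e : ι → Fin 4 → F} (hG : GP e) (S : Finset ι) (hS : S.Nonempty)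
    (hc : S.card ≤ 3) (w : ι → Fin 4 → F)
    (H : ∀ a b, a ≠ b → ¬ S ⊆ {a, b} → ∃ α β : F, w b - w a = α • e a + β • e b) :
    ∃ v : Fin 4 → F, ∀ a, ¬ S ⊆ {a} → ∃ γ : F, w a - v = γ • e a := by
  obtain ⟨g, h, hne, hg, hh, hgh⟩ := hG S hc
  have hpair : ∀ x a : ι, x ∉ S → ¬ S ⊆ {a} → ¬ S ⊆ {x, a} := by
    intro x a hx ha hs
    apply ha
    intro y hy
    have := hs hy
    rw [Finset.mem_insert] at this
    rcases this with rfl | h1
    · exact absurd hy hx
    · exact h1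
  have hSe : ¬ S ⊆ {g, h} := by
    intro hs
    obtain ⟨x, hx⟩ := hS
    have := hs hx
    rw [Finset.mem_insert, Finset.mem_singleton] at this
    rcases this with rfl | rfl
    · exact hg hx
    · exact hh hx
  obtain ⟨α, β, hαβ⟩ := H g h hne hSe
  refine ⟨w g + α • e g, fun a ha => ?_⟩
  by_cases hag : a = g
  · subst hag
    exact ⟨-α, by rw [neg_smul]; abel⟩
  by_cases hah : a = h
  · subst hah
    refine ⟨β, ?_⟩
    have : w a - (w g + α • e g) = (w a - w g) - α • e g := by abel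
    rw [this, hαβ]
    abel
  obtain ⟨α', γ, h1⟩ := H g a (Ne.symm hag) (hpair g a hg ha)
  obtain ⟨β', γ', h2⟩ := H h a (Ne.symm hah) (hpair h a hh ha)
  have h3 : (α' - α) • e g + (-β' - β) • e h + (γ - γ') • e a = 0 := by
    have e1 : (α' - α) • e g + (-β' - β) • e h + (γ - γ') • e a =
        (α' • e g + γ • e a) - (β' • e h + γ' • e a) - (α • e g + β • e h) := by
      module
    rw [e1, ← h1, ← h2, ← hαβ]
    abel
  obtain ⟨k1, -, -⟩ := indep3 hG hgh hag hah h3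
  refine ⟨γ, ?_⟩
  have : w a - (w g + α • e g) = (w a - w g) - α • e g := by abel
  rw [this, h1, ← sub_eq_zero.1 k1]
  abel

/-- core of Y2 -/
lemma core2 [DecidableEq ι] {e : ι → Fin 4 → F} (hG : GP e) (S : Finset ι) (hS : S.Nonempty)
    (hc : S.card ≤ 3) (U : ι → ι → Fin 4 → F) (hU0 : ∀ a, U a a = 0) (hU : ∀ a b, U b a = -U a b)
    (H : ∀ a b c, a ≠ b → b ≠ c → a ≠ c → ¬ S ⊆ {a, b, c} →
      ∃ α β γ : F, U a b + U b c + U c a = α • e a + β • e b + γ • e c) :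
    ∃ w : ι → Fin 4 → F, ∀ a b, a ≠ b → ¬ S ⊆ {a, b} →
      ∃ α β : F, U a b - (w b - w a) = α • e a + β • e b := by
  obtain ⟨g, h, hne, hg, hh, hgh⟩ := hG S hc
  have hins : ∀ (x : ι) (T : Finset ι), x ∉ S → ¬ S ⊆ T → ¬ S ⊆ insert x T := by
    intro x T hx hT hs
    apply hT
    intro y hy
    have := hs hy
    rw [Finset.mem_insert] at this
    rcases this with rfl | h1
    · exact absurd hy hx
    · exact h1
  have hsing : ∀ a b : ι, ¬ S ⊆ {a, b} → ¬ S ⊆ {a} := by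
    intro a b hab hs
    exact hab (hs.trans (by intro x; simp; tauto))
  have hsing' : ∀ a b : ι, ¬ S ⊆ {a, b} → ¬ S ⊆ {b} := by
    intro a b hab hs
    exact hab (hs.trans (by intro x; simp; tauto))
  -- the scalars
  have hs : ∃ s : ι → F, s g = 0 ∧ s h = 0 ∧ ∀ a, a ≠ g → a ≠ h → ¬ S ⊆ {a} →
      ∃ β γ : F, U h a - (U g a - U g h) = s a • e g + β • e h + γ • e a := by
    have h1 : ∀ a, ∃ s : F, (a = g → s = 0) ∧ (a = h → s = 0) ∧ (a ≠ g → a ≠ h → ¬ S ⊆ {a} →
        ∃ β γ : F, U h a - (U g a - U g h) = s • e g + β • e h + γ • e a) := by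
      intro a
      by_cases hag : a = g
      · exact ⟨0, fun _ => rfl, fun _ => rfl, fun h => absurd hag h⟩
      by_cases hah : a = h
      · exact ⟨0, fun _ => rfl, fun _ => rfl, fun _ h => absurd hah h⟩
      by_cases hSa : S ⊆ {a}
      · exact ⟨0, fun _ => rfl, fun _ => rfl, fun _ _ h => absurd hSa h⟩
      obtain ⟨x, y, z, hxyz⟩ := H g h a hne (Ne.symm hah) (Ne.symm hag)
        (hins g _ hg (hins h _ hh hSa))
      refine ⟨x, fun h => absurd h hag, fun h => absurd h hah, fun _ _ _ => ⟨y, z, ?_⟩⟩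
      rw [← hxyz, hU g a]
      abel
    choose s h1 h2 h3 using h1
    exact ⟨s, h1 g rfl, h2 h rfl, h3⟩
  obtain ⟨s, hsg, hsh, hs⟩ := hs
  refine ⟨fun a => U g a + s a • e g, ?_⟩
  have hsymm : ∀ a b, (∃ α β : F, U a b - ((U g b + s b • e g) - (U g a + s a • e g)) =
      α • e a + β • e b) → ∃ α β : F, U b a - ((U g a + s a • e g) - (U g b + s b • e g)) =
      α • e b + β • e a := by
    rintro a b ⟨α, β, h1⟩
    refine ⟨-β, -α, ?_⟩
    have : U b a - ((U g a + s a • e g) - (U g b + s b • e g)) =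
        -(U a b - ((U g b + s b • e g) - (U g a + s a • e g))) := by
      rw [hU a b]; abel
    rw [this, h1]
    module
  have hgb : ∀ b, ∃ α β : F, U g b - ((U g b + s b • e g) - (U g g + s g • e g)) =
      α • e g + β • e b := by
    intro b
    refine ⟨-s b, 0, ?_⟩
    rw [hU0, hsg]
    module
  have hhb : ∀ b, b ≠ g → b ≠ h → ¬ S ⊆ {b} →
      ∃ α β : F, U h b - ((U g b + s b • e g) - (U g h + s h • e g)) =
      α • e h + β • e b := by
    intro b b1 b2 b3
    obtain ⟨β, γ, h1⟩ := hs b b1 b2 b3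
    refine ⟨β, γ, ?_⟩
    have : U h b - ((U g b + s b • e g) - (U g h + s h • e g)) =
        (U h b - (U g b - U g h)) - s b • e g + s h • e g := by abel
    rw [this, h1, hsh]
    module
  intro a b hab hSab
  by_cases ha : a = g
  · subst ha; exact hgb b
  by_cases hb : b = g
  · subst hb; exact hsymm _ _ (hgb a)
  by_cases ha2 : a = h
  · subst ha2; exact hhb b hb (Ne.symm hab) (hsing' _ _ hSab)
  by_cases hb2 : b = h
  · subst hb2; exact hsymm _ _ (hhb a ha ha2 (hsing _ _ hSab))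
  obtain ⟨β, γ, h1⟩ := hs a ha ha2 (hsing _ _ hSab)
  obtain ⟨β', γ', h2⟩ := hs b hb hb2 (hsing' _ _ hSab)
  obtain ⟨x, y, z, h3⟩ := H h a b (Ne.symm ha2) hab (Ne.symm hb2) (hins h _ hh hSab)
  obtain ⟨θ, p, q, h4⟩ := H g a b (Ne.symm ha) hab (Ne.symm hb) (hins g _ hg hSab)
  -- the comparison
  have h5 : (s a + θ - s b) • e g + (β - β' - x) • e h + (γ + p - y) • e a +
      (q - γ' - z) • e b = 0 := by
    have e1 : (s a + θ - s b) • e g + (β - β' - x) • e h + (γ + p - y) • e a +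
      (q - γ' - z) • e b = (s a • e g + β • e h + γ • e a) + (θ • e g + p • e a + q • e b) -
        (s b • e g + β' • e h + γ' • e b) - (x • e h + y • e a + z • e b) := by
      module
    rw [e1, ← h1, ← h2, ← h3, ← h4, hU g b, hU h b]
    abel
  obtain ⟨k, -, -, -⟩ := indep4 (hgh a b hab ha ha2 hb hb2) h5
  refine ⟨p, q, ?_⟩
  have h6 : U a b - ((U g b + s b • e g) - (U g a + s a • e g)) =
      (U g a + U a b + U b g) - (s b - s a) • e g := by
    rw [hU g b]
    module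
  have h7 : θ = s b - s a := by linear_combination k
  rw [h6, h4, h7]
  module

section main

variable [LinearOrder ι]

lemma rep1 (e : ι → Fin 4 → F) (u : C1 e) : ∃ w : ι → Fin 4 → F, ∀ a, (E1 e a).mkQ (w a) = u a := by
  have h : ∀ a, ∃ w : Fin 4 → F, (E1 e a).mkQ w = u a := fun a => (E1 e a).mkQ_surjective (u a)
  exact ⟨fun a => (h a).choose, fun a => (h a).choose_spec⟩

lemma rep2 (e : ι → Fin 4 → F) (u : C2 e) : ∃ w : ι → ι → Fin 4 → F,
    (∀ a, w a a = 0) ∧ (∀ a b, w b a = -w a b) ∧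
    ∀ p : Prs ι, (E2 e p.1.1 p.1.2).mkQ (w p.1.1 p.1.2) = u p := by
  have h : ∀ p : Prs ι, ∃ w : Fin 4 → F, (E2 e p.1.1 p.1.2).mkQ w = u p :=
    fun p => (E2 e p.1.1 p.1.2).mkQ_surjective (u p)
  choose r hr using h
  refine ⟨fun a b => if hab : a < b then r ⟨(a, b), hab⟩ else
    if hba : b < a then -r ⟨(b, a), hba⟩ else 0, ?_, ?_, ?_⟩
  · intro a; simp
  · intro a b
    rcases lt_trichotomy a b with h | h | h
    · simp [h, h.not_gt]
    · subst h; simp
    · simp [h, h.not_gt]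
  · intro p
    have : p.1.1 < p.1.2 := p.2
    simp only [this, dif_pos]
    exact hr p

lemma d1_apply (e : ι → Fin 4 → F) (u : C1 e) (w : ι → Fin 4 → F)
    (hw : ∀ a, (E1 e a).mkQ (w a) = u a) (p : Prs ι) :
    d1 e u p = (E2 e p.1.1 p.1.2).mkQ (w p.1.2 - w p.1.1) := by
  have h1 : d1 e u p = r1r e p u - r1l e p u := rfl
  have h2 : r1r e p u = Submodule.factor (E1_le_right e p.1.1 p.1.2) (u p.1.2) := rfl
  have h3 : r1l e p u = Submodule.factor (E1_le_left e p.1.1 p.1.2) (u p.1.1) := rfl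
  rw [h1, h2, h3, ← hw, ← hw, map_sub]
  rfl

lemma d2_apply (e : ι → Fin 4 → F) (u : C2 e) (w : ι → ι → Fin 4 → F)
    (hw : ∀ p : Prs ι, (E2 e p.1.1 p.1.2).mkQ (w p.1.1 p.1.2) = u p) (t : Trs ι) :
    d2 e u t = (E3 e t.1.1 t.1.2.1 t.1.2.2).mkQ
      (w t.1.2.1 t.1.2.2 - w t.1.1 t.1.2.2 + w t.1.1 t.1.2.1) := by
  have h1 : d2 e u t = r2bc e t u - r2ac e t u + r2ab e t u := rfl
  have h2 : r2bc e t u = Submodule.factor (E2_le_bc e t.1.1 t.1.2.1 t.1.2.2)
    (u (⟨(t.1.2.1, t.1.2.2), t.2.2⟩ : Prs ι)) := rfl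
  have h3 : r2ac e t u = Submodule.factor (E2_le_ac e t.1.1 t.1.2.1 t.1.2.2)
    (u (⟨(t.1.1, t.1.2.2), t.2.1.trans t.2.2⟩ : Prs ι)) := rfl
  have h4 : r2ab e t u = Submodule.factor (E2_le_ab e t.1.1 t.1.2.1 t.1.2.2)
    (u (⟨(t.1.1, t.1.2.1), t.2.1⟩ : Prs ι)) := rfl
  rw [h1, h2, h3, h4, ← hw, ← hw, ← hw, map_add, map_sub]
  rfl

lemma d1_d0 (e : ι → Fin 4 → F) (v : Fin 4 → F) : d1 e (d0 e v) = 0 := by
  funext p
  rw [d1_apply e (d0 e v) (fun _ => v) (fun _ => rfl) p, sub_self, map_zero]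
  rfl

lemma d2_d1 (e : ι → Fin 4 → F) (u : C1 e) : d2 e (d1 e u) = 0 := by
  obtain ⟨w, hw⟩ := rep1 e u
  funext t
  rw [d2_apply e (d1 e u) (fun a b => w b - w a) (fun p => (d1_apply e u w hw p).symm) t]
  have : w t.1.2.2 - w t.1.2.1 - (w t.1.2.2 - w t.1.1) + (w t.1.2.1 - w t.1.1) = 0 := by abel
  rw [this, map_zero]
  rfl

lemma pair_of (e : ι → Fin 4 → F) (u : C1 e) (w : ι → Fin 4 → F)
    (hw : ∀ a, (E1 e a).mkQ (w a) = u a) (S : Finset ι)
    (h : ∀ p : Prs ι, ¬ S ⊆ {p.1.1, p.1.2} → d1 e u p = 0) :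
    ∀ a b, a ≠ b → ¬ S ⊆ {a, b} → ∃ α β : F, w b - w a = α • e a + β • e b := by
  have key : ∀ a b, a < b → ¬ S ⊆ {a, b} → ∃ α β : F, w b - w a = α • e a + β • e b := by
    intro a b hab hS
    have h1 := h ⟨(a, b), hab⟩ hS
    rw [d1_apply e u w hw, Submodule.mkQ_apply, Submodule.Quotient.mk_eq_zero] at h1
    unfold E2 at h1
    obtain ⟨α, β, h2⟩ := Submodule.mem_span_pair.1 h1
    exact ⟨α, β, h2.symm⟩
  intro a b hab hS
  rcases lt_or_gt_of_ne hab with h1 | h1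
  · exact key a b h1 hS
  · obtain ⟨α, β, h2⟩ := key b a h1 (by rwa [Finset.pair_comm])
    refine ⟨-β, -α, ?_⟩
    have : w b - w a = -(w a - w b) := by abel
    rw [this, h2]
    module

lemma triple_of (e : ι → Fin 4 → F) (u : C2 e) (w : ι → ι → Fin 4 → F)
    (hw1 : ∀ a b, w b a = -w a b)
    (hw : ∀ p : Prs ι, (E2 e p.1.1 p.1.2).mkQ (w p.1.1 p.1.2) = u p) (S : Finset ι)
    (h : ∀ t : Trs ι, ¬ S ⊆ {t.1.1, t.1.2.1, t.1.2.2} → d2 e u t = 0) :
    ∀ a b c, a ≠ b → b ≠ c → a ≠ c → ¬ S ⊆ {a, b, c} →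
      ∃ α β γ : F, w a b + w b c + w c a = α • e a + β • e b + γ • e c := by
  have key : ∀ a b c, a < b → b < c → ¬ S ⊆ {a, b, c} →
      ∃ α β γ : F, w a b + w b c + w c a = α • e a + β • e b + γ • e c := by
    intro a b c hab hbc hS
    have h1 := h ⟨(a, b, c), hab, hbc⟩ hS
    rw [d2_apply e u w hw, Submodule.mkQ_apply, Submodule.Quotient.mk_eq_zero] at h1
    unfold E3 at h1
    obtain ⟨α, β, γ, h2⟩ := Submodule.mem_span_triple.1 h1
    refine ⟨α, β, γ, ?_⟩
    rw [h2, hw1 a c]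
    abel
  -- permutations
  have rot : ∀ a b c, (∃ α β γ : F, w a b + w b c + w c a = α • e a + β • e b + γ • e c) →
      ∃ α β γ : F, w b c + w c a + w a b = α • e b + β • e c + γ • e a := by
    rintro a b c ⟨α, β, γ, h⟩
    refine ⟨β, γ, α, ?_⟩
    have : w b c + w c a + w a b = w a b + w b c + w c a := by abel
    rw [this, h]
    abel
  have sw : ∀ a b c, (∃ α β γ : F, w a b + w b c + w c a = α • e a + β • e b + γ • e c) →
      ∃ α β γ : F, w b a + w a c + w c b = α • e b + β • e a + γ • e c := by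
    rintro a b c ⟨α, β, γ, h⟩
    refine ⟨-β, -α, -γ, ?_⟩
    have : w b a + w a c + w c b = -(w a b + w b c + w c a) := by
      rw [hw1 a b, hw1 c a, hw1 b c]; abel
    rw [this, h]
    module
  intro a b c hab hbc hac hS
  have s1 : ({a, b, c} : Finset ι) = {b, c, a} := by ext x; simp; tauto
  have s2 : ({a, b, c} : Finset ι) = {c, a, b} := by ext x; simp; tauto
  have s3 : ({a, b, c} : Finset ι) = {b, a, c} := by ext x; simp; tauto
  have s4 : ({a, b, c} : Finset ι) = {a, c, b} := by ext x; simp; tauto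
  have s5 : ({a, b, c} : Finset ι) = {c, b, a} := by ext x; simp; tauto
  rcases lt_or_gt_of_ne hab with h1 | h1 <;> rcases lt_or_gt_of_ne hbc with h2 | h2 <;>
    rcases lt_or_gt_of_ne hac with h3 | h3
  · exact key a b c h1 h2 hS
  · exact absurd (h1.trans h2) h3.not_gt
  · -- a < c < b
    exact rot _ _ _ (sw _ _ _ (key a c b h3 h2 (by rwa [← s4])))
  · -- c < a < b
    exact rot _ _ _ (key c a b h3 h1 (by rwa [← s2]))
  · -- b < a < c
    exact sw _ _ _ (key b a c h1 h3 (by rwa [← s3]))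
  · -- b < c < a
    exact rot _ _ _ (rot _ _ _ (key b c a h2 h3 (by rwa [← s1])))
  · exact absurd (h2.trans h1) h3.not_gt
  · -- c < b < a
    exact sw _ _ _ (rot _ _ _ (key c b a h2 h1 (by rwa [← s5])))

theorem y1 : T_Y1.{u} := by
  intro F _ ι _ e hG
  refine ⟨?_, ?_, ?_⟩
  · intro v hv
    obtain ⟨g, h, hne, -, -, hgh⟩ := hG ∅ (by simp)
    obtain ⟨a, a1, a2, -⟩ := fourth hG g h h
    have hmem : ∀ a, v ∈ E1 e a := by
      intro a
      have h1 : (d0 e v) a = (E1 e a).mkQ v := rfl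
      rw [hv] at h1
      rw [← Submodule.Quotient.mk_eq_zero, ← Submodule.mkQ_apply, ← h1]
      rfl
    obtain ⟨x, hx⟩ := Submodule.mem_span_singleton.1 (hmem g)
    obtain ⟨y, hy⟩ := Submodule.mem_span_singleton.1 (hmem h)
    have h3 : x • e g + (-y) • e h + (0 : F) • e a = 0 := by
      rw [hx, neg_smul, hy, zero_smul]
      abel
    obtain ⟨k, -, -⟩ := indep3 hG hgh a1 a2 h3
    rw [← hx, k, zero_smul]
  · intro u hu
    obtain ⟨w, hw⟩ := rep1 e u
    obtain ⟨g, h, hne, -, -, hgh⟩ := hG ∅ (by simp)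
    have hS2 : ({g, h} : Finset ι).card ≤ 3 := (Finset.card_le_two).trans (by norm_num)
    obtain ⟨v, hv⟩ := core1 hG {g, h} ⟨g, by simp⟩ hS2 w
      (pair_of e u w hw {g, h} fun p _ => by rw [hu]; rfl)
    refine ⟨v, ?_⟩
    funext a
    have hS : ¬ ({g, h} : Finset ι) ⊆ {a} := by
      intro hs
      have h1 := hs (show g ∈ ({g, h} : Finset ι) by simp)
      have h2 := hs (show h ∈ ({g, h} : Finset ι) by simp)
      rw [Finset.mem_singleton] at h1 h2
      exact hne (h1.trans h2.symm)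
    obtain ⟨γ, hγ⟩ := hv a hS
    have h1 : (d0 e v) a = (E1 e a).mkQ v := rfl
    rw [h1, ← hw a, ← sub_eq_zero, ← map_sub, Submodule.mkQ_apply, Submodule.Quotient.mk_eq_zero]
    rw [← neg_sub, hγ]
    exact Submodule.neg_mem _ (Submodule.smul_mem _ _ (Submodule.mem_span_singleton_self _))
  · intro S hS u hu
    by_cases hc : S.card ≤ 3
    · obtain ⟨w, hw⟩ := rep1 e u
      obtain ⟨v, hv⟩ := core1 hG S hS hc w (pair_of e u w hw S hu)
      refine ⟨u - d0 e v, ?_, ?_⟩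
      · intro a ha
        obtain ⟨γ, hγ⟩ := hv a ha
        have h1 : (u - d0 e v) a = u a - (E1 e a).mkQ v := rfl
        rw [h1, ← hw a, ← map_sub, Submodule.mkQ_apply, Submodule.Quotient.mk_eq_zero, hγ]
        exact Submodule.smul_mem _ _ (Submodule.mem_span_singleton_self _)
      · rw [map_sub, d1_d0, sub_zero]
    · refine ⟨0, fun _ _ => rfl, ?_⟩
      rw [map_zero]
      funext p
      symm
      apply hu p
      intro hs
      have := Finset.card_le_card hs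
      have h2 : ({p.1.1, p.1.2} : Finset ι).card ≤ 2 := Finset.card_le_two
      omega

theorem y2 : T_Y2.{u} := by
  intro F _ ι _ e hG
  have step : ∀ (S : Finset ι) (hS : S.Nonempty) (hc : S.card ≤ 3) (u : C2 e),
      (∀ t : Trs ι, ¬ S ⊆ {t.1.1, t.1.2.1, t.1.2.2} → d2 e u t = 0) →
      ∃ v : C1 e, ∀ p : Prs ι, ¬ S ⊆ {p.1.1, p.1.2} → (u - d1 e v) p = 0 := by
    intro S hS hc u hu
    obtain ⟨U, hU0, hU1, hU⟩ := rep2 e u
    obtain ⟨w, hw⟩ := core2 hG S hS hc U hU0 hU1 (triple_of e u U hU1 hU S hu)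
    refine ⟨fun a => (E1 e a).mkQ (w a), ?_⟩
    intro p hp
    obtain ⟨α, β, h1⟩ := hw p.1.1 p.1.2 p.2.ne hp
    have h2 : (u - d1 e (fun a => (E1 e a).mkQ (w a))) p =
      u p - d1 e (fun a => (E1 e a).mkQ (w a)) p := rfl
    rw [h2, d1_apply e _ w (fun _ => rfl) p, ← hU p, ← map_sub, h1, Submodule.mkQ_apply,
      Submodule.Quotient.mk_eq_zero]
    exact Submodule.mem_span_pair.2 ⟨α, β, rfl⟩
  refine ⟨?_, ?_⟩
  · intro u hu
    obtain ⟨g, h, hne, -, -, -⟩ := hG ∅ (by simp)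
    obtain ⟨a, a1, a2, -⟩ := fourth hG g h h
    have hS3 : ({g, h, a} : Finset ι).card ≤ 3 := Finset.card_le_three
    obtain ⟨v, hv⟩ := step {g, h, a} ⟨g, by simp⟩ hS3 u fun t _ => by rw [hu]; rfl
    refine ⟨v, ?_⟩
    funext p
    have hS : ¬ ({g, h, a} : Finset ι) ⊆ {p.1.1, p.1.2} := by
      intro hs
      have h3 : ({g, h, a} : Finset ι).card = 3 := by
        rw [Finset.card_insert_of_notMem, Finset.card_insert_of_notMem, Finset.card_singleton]
        · simpa using Ne.symm a2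
        · simp only [Finset.mem_insert, Finset.mem_singleton, not_or]
          exact ⟨hne, Ne.symm a1⟩
      have h4 := Finset.card_le_card hs
      have h5 : ({p.1.1, p.1.2} : Finset ι).card ≤ 2 := Finset.card_le_two
      omega
    have h1 := hv p hS
    have h2 : (u - d1 e v) p = u p - d1 e v p := rfl
    rw [h2, sub_eq_zero] at h1
    exact h1.symm
  · intro S hS u hu
    by_cases hc : S.card ≤ 3
    · obtain ⟨v, hv⟩ := step S hS hc u hu
      refine ⟨u - d1 e v, hv, ?_⟩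
      rw [map_sub, d2_d1, sub_zero]
    · refine ⟨0, fun _ _ => rfl, ?_⟩
      rw [map_zero]
      funext t
      symm
      apply hu t
      intro hs
      have := Finset.card_le_card hs
      have h2 : ({t.1.1, t.1.2.1, t.1.2.2} : Finset ι).card ≤ 3 := Finset.card_le_three
      omega

end main

end Pool.Agent.H92.FS
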